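import Pool.Agent.Helper67.DO.StmtsE1

namespace Pool.Agent.Helper67.DO

open scoped BigOperators Real Topology Interval
open MeasureTheory Set

noncomputable section

theorem e5_st_open (s : ℝ) : IsOpen (St s) := by
  have : St s = {z : ℂ | |z.im| < s} := rfl
  rw [this]
  exact isOpen_lt (by fun_prop) continuous_const

theorem e5_pu_open (q : ℕ) {U : Set ℂ} (hU : IsOpen U) : IsOpen (PU q U) := by
  have : PU q U = Set.pi Set.univ (fun _ : Fin q => U) := by
    ext z; simp [PU]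
  rw [this]
  exact isOpen_set_pi Set.finite_univ (fun _ _ => hU)

theorem e5_real_mem {s : ℝ} (hs : 0 < s) (x : ℝ) : (x : ℂ) ∈ St s := by
  simp [St, hs]

theorem e5_cons_mem {q : ℕ} {s : ℝ} (hs : 0 < s) (x : ℝ) {v : Fin q → ℂ} (hv : v ∈ PU q (St s)) :
    (Fin.cons (x : ℂ) v : Fin (q + 1) → ℂ) ∈ PU (q + 1) (St s) := by
  intro i
  refine Fin.cases ?_ ?_ i
  · simpa using e5_real_mem hs x
  · intro j
    simpa using hv j

def e5L (q : ℕ) : (Fin q → ℂ) →L[ℂ] (Fin (q + 1) → ℂ) :=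
  ContinuousLinearMap.pi (fun i => Fin.cases (0 : (Fin q → ℂ) →L[ℂ] ℂ)
    (fun j => ContinuousLinearMap.proj j) i)

theorem e5L_apply (q : ℕ) (v : Fin q → ℂ) : e5L q v = (Fin.cons 0 v : Fin (q + 1) → ℂ) := by
  ext i
  refine Fin.cases ?_ ?_ i
  · simp [e5L]
  · intro j; simp [e5L]

theorem e5_cons_eq (q : ℕ) (x : ℂ) (v : Fin q → ℂ) :
    (Fin.cons x v : Fin (q + 1) → ℂ) = (Fin.cons x 0 : Fin (q + 1) → ℂ) + e5L q v := by
  rw [e5L_apply]
  ext i
  refine Fin.cases ?_ ?_ i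
  · simp
  · intro j; simp

theorem e5_cons_hfd (q : ℕ) (x : ℂ) (v : Fin q → ℂ) :
    HasFDerivAt (fun v : Fin q → ℂ => (Fin.cons x v : Fin (q + 1) → ℂ)) (e5L q) v := by
  have h : (fun v : Fin q → ℂ => (Fin.cons x v : Fin (q + 1) → ℂ))
      = fun v => (Fin.cons x 0 : Fin (q + 1) → ℂ) + e5L q v := by
    funext v; exact e5_cons_eq q x v
  rw [h]
  exact (e5L q).hasFDerivAt.const_add _

theorem e5L_norm (q : ℕ) : ‖e5L q‖ ≤ 1 := by
  refine ContinuousLinearMap.opNorm_le_bound _ zero_le_one (fun v => ?_)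
  rw [one_mul, e5L_apply, pi_norm_le_iff_of_nonneg (norm_nonneg _)]
  intro i
  refine Fin.cases ?_ ?_ i
  · simp
  · intro j; simpa using norm_le_pi_norm v j

theorem e5_cons_cont (q : ℕ) (v : Fin q → ℂ) :
    Continuous (fun x : ℝ => (Fin.cons (x : ℂ) v : Fin (q + 1) → ℂ)) := by
  refine continuous_pi (fun i => ?_)
  refine Fin.cases ?_ ?_ i
  · simpa using Complex.continuous_ofReal
  · intro j; simpa using continuous_const

theorem e5_cauchy {n : ℕ} {W : Set (Fin n → ℂ)} {F : (Fin n → ℂ) → ℂ} (hF : DifferentiableOn ℂ F W)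
    {z : Fin n → ℂ} {r M : ℝ} (hr : 0 < r) (hW : IsOpen W) (hb : Metric.closedBall z r ⊆ W)
    (hM : ∀ w ∈ W, ‖F w‖ ≤ M) : ‖fderiv ℂ F z‖ ≤ M / r := by
  have hzW : z ∈ W := hb (Metric.mem_closedBall_self hr.le)
  have hM0 : 0 ≤ M := (norm_nonneg _).trans (hM z hzW)
  refine ContinuousLinearMap.opNorm_le_bound _ (div_nonneg hM0 hr.le) (fun w => ?_)
  by_cases hw : w = 0
  · subst hw; simp
  have hwn : 0 < ‖w‖ := norm_pos_iff.2 hw
  set ρ : ℝ := r / ‖w‖ with hρ
  have hρ0 : 0 < ρ := div_pos hr hwn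
  have hline : ∀ t : ℂ, HasDerivAt (fun t : ℂ => z + t • w) w t := by
    intro t
    simpa using ((hasDerivAt_id t).smul_const w).const_add z
  have hmem : ∀ t ∈ Metric.closedBall (0 : ℂ) ρ, z + t • w ∈ W := by
    intro t ht
    apply hb
    rw [Metric.mem_closedBall, dist_eq_norm, add_sub_cancel_left, norm_smul]
    have : ‖t‖ ≤ ρ := by simpa using ht
    calc ‖t‖ * ‖w‖ ≤ ρ * ‖w‖ := by gcongr
      _ = r := by rw [hρ]; field_simp
  have hd : ∀ t ∈ Metric.closedBall (0 : ℂ) ρ, DifferentiableAt ℂ (fun t : ℂ => F (z + t • w)) t := by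
    intro t ht
    have h1 : DifferentiableAt ℂ F (z + t • w) := (hF _ (hmem t ht)).differentiableAt (hW.mem_nhds (hmem t ht))
    exact h1.comp t (hline t).differentiableAt
  have hdc : DiffContOnCl ℂ (fun t : ℂ => F (z + t • w)) (Metric.ball 0 ρ) := by
    refine DifferentiableOn.diffContOnCl ?_
    intro t ht
    exact (hd t (Metric.closure_ball_subset_closedBall ht)).differentiableWithinAt
  have h2 := Complex.norm_deriv_le_of_forall_mem_sphere_norm_le (C := M) hρ0 hdc (by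
    intro t ht
    exact hM _ (hmem t (Metric.sphere_subset_closedBall ht)))
  have h3 : deriv (fun t : ℂ => F (z + t • w)) 0 = fderiv ℂ F z w := by
    have h4 : HasFDerivAt F (fderiv ℂ F z) (z + (0 : ℂ) • w) := by
      rw [zero_smul, add_zero]
      exact ((hF _ hzW).differentiableAt (hW.mem_nhds hzW)).hasFDerivAt
    exact (h4.comp_hasDerivAt (0 : ℂ) (hline 0)).deriv
  rw [h3] at h2
  calc ‖(fderiv ℂ F z) w‖ ≤ M / ρ := h2
    _ = M / r * ‖w‖ := by rw [hρ]; field_simp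

theorem e5_insert_hd {n : ℕ} (i : Fin (n + 1)) (v : Fin n → ℂ) (c : ℂ) :
    HasDerivAt (fun t : ℂ => (i.insertNth t v : Fin (n + 1) → ℂ)) (Pi.single i 1) c := by
  rw [hasDerivAt_pi]
  intro j
  rcases Fin.eq_self_or_eq_succAbove i j with h | ⟨k, h⟩
  · subst h
    simpa using hasDerivAt_id' c
  · subst h
    have h1 : (Pi.single i (1 : ℂ) : Fin (n + 1) → ℂ) (i.succAbove k) = 0 := by
      rw [Pi.single_apply, if_neg (Fin.succAbove_ne i k)]
    rw [h1]
    simpa using hasDerivAt_const c (v k)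

theorem e5_deriv_insert {n : ℕ} {F : (Fin (n + 1) → ℂ) → ℂ} (i : Fin (n + 1)) (v : Fin n → ℂ) (c : ℂ)
    (hF : DifferentiableAt ℂ F (i.insertNth c v)) :
    HasDerivAt (fun t : ℂ => F (i.insertNth t v)) (fderiv ℂ F (i.insertNth c v) (Pi.single i 1)) c :=
  hF.hasFDerivAt.comp_hasDerivAt c (e5_insert_hd i v c)

/-- local data at a point of the strip -/
theorem e5_radius {q : ℕ} {s : ℝ} (hs : 0 < s) {v : Fin q → ℂ} (hv : v ∈ PU q (St s)) :
    ∃ r : ℝ, 0 < r ∧ ∀ w ∈ Metric.ball v r, ∀ x : ℝ,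
      Metric.closedBall (Fin.cons (x : ℂ) w : Fin (q + 1) → ℂ) r ⊆ PU (q + 1) (St s) ∧ w ∈ PU q (St s) := by
  obtain ⟨r0, hr0, hb⟩ := Metric.isOpen_iff.1 (e5_pu_open q (e5_st_open s)) v hv
  refine ⟨min (r0 / 2) (s / 2), by positivity, ?_⟩
  intro w hw x
  have hwd : dist w v < r0 / 2 := lt_of_lt_of_le hw (min_le_left _ _)
  refine ⟨?_, hb (by rw [Metric.mem_ball]; linarith)⟩
  intro y hy
  have hy' : dist y (Fin.cons (x : ℂ) w : Fin (q + 1) → ℂ) ≤ min (r0 / 2) (s / 2) := hy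
  have hyi : ∀ i, dist (y i) ((Fin.cons (x : ℂ) w : Fin (q + 1) → ℂ) i) ≤ min (r0 / 2) (s / 2) := fun i =>
    (dist_le_pi_dist y _ i).trans hy'
  intro i
  refine Fin.cases ?_ ?_ i
  · have h := (hyi 0).trans (min_le_right _ _)
    simp only [Fin.cons_zero] at h
    have h2 : |(y 0 - (x : ℂ)).im| ≤ ‖y 0 - (x : ℂ)‖ := Complex.abs_im_le_norm _
    rw [dist_eq_norm] at h
    have h3 : (y 0 - (x : ℂ)).im = (y 0).im := by simp
    rw [h3] at h2
    show |(y 0).im| < s
    linarith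
  · intro j
    have h := (hyi j.succ).trans (min_le_left _ _)
    simp only [Fin.cons_succ] at h
    have hmem : (fun k : Fin q => y k.succ) ∈ Metric.ball v r0 := by
      rw [Metric.mem_ball, dist_pi_lt_iff hr0]
      intro k
      have hk := (hyi k.succ).trans (min_le_left _ _)
      simp only [Fin.cons_succ] at hk
      have h5 : dist (w k) (v k) ≤ dist w v := dist_le_pi_dist w v k
      calc dist (y k.succ) (v k) ≤ dist (y k.succ) (w k) + dist (w k) (v k) := dist_triangle _ _ _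
        _ < r0 := by linarith
    exact hb hmem j

theorem e5_tc_hfd {q : ℕ} {s : ℝ} (hs : 0 < s) {F : (Fin (q + 1) → ℂ) → ℂ} (hF : BO (q + 1) (St s) F)
    {v : Fin q → ℂ} (hv : v ∈ PU q (St s)) :
    IntervalIntegrable (fun x : ℝ => (fderiv ℂ F (Fin.cons (x : ℂ) v : Fin (q + 1) → ℂ)).comp (e5L q))
        volume 0 1 ∧
      HasFDerivAt (tc q F)
        (∫ x in (0 : ℝ)..1, (fderiv ℂ F (Fin.cons (x : ℂ) v : Fin (q + 1) → ℂ)).comp (e5L q)) v := by
  obtain ⟨r, hr, hball⟩ := e5_radius hs hv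
  obtain ⟨M, hM⟩ := hF.bdd
  have hopen := e5_pu_open (q + 1) (e5_st_open s)
  have hdiff : ∀ w ∈ Metric.ball v r, ∀ x : ℝ,
      HasFDerivAt (fun u : Fin q → ℂ => F (Fin.cons (x : ℂ) u : Fin (q + 1) → ℂ))
        ((fderiv ℂ F (Fin.cons (x : ℂ) w : Fin (q + 1) → ℂ)).comp (e5L q)) w := by
    intro w hw x
    have hmem := e5_cons_mem hs x (hball w hw x).2
    have h1 : HasFDerivAt F (fderiv ℂ F (Fin.cons (x : ℂ) w : Fin (q + 1) → ℂ))
        (Fin.cons (x : ℂ) w : Fin (q + 1) → ℂ) :=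
      ((hF.hol _ hmem).differentiableAt (hopen.mem_nhds hmem)).hasFDerivAt
    exact h1.comp w (e5_cons_hfd q x w)
  have hbound : ∀ w ∈ Metric.ball v r, ∀ x : ℝ,
      ‖(fderiv ℂ F (Fin.cons (x : ℂ) w : Fin (q + 1) → ℂ)).comp (e5L q)‖ ≤ M / r := by
    intro w hw x
    have h1 := e5_cauchy hF.hol hr hopen (hball w hw x).1 hM
    calc ‖(fderiv ℂ F (Fin.cons (x : ℂ) w : Fin (q + 1) → ℂ)).comp (e5L q)‖
        ≤ ‖fderiv ℂ F (Fin.cons (x : ℂ) w : Fin (q + 1) → ℂ)‖ * ‖e5L q‖ :=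
          ContinuousLinearMap.opNorm_comp_le _ _
      _ ≤ ‖fderiv ℂ F (Fin.cons (x : ℂ) w : Fin (q + 1) → ℂ)‖ * 1 := by
          gcongr; exact e5L_norm q
      _ ≤ M / r := by rw [mul_one]; exact h1
  have hcont : ∀ w ∈ Metric.ball v r, Continuous (fun x : ℝ => F (Fin.cons (x : ℂ) w : Fin (q + 1) → ℂ)) := by
    intro w hw
    rw [continuous_iff_continuousAt]
    intro x
    have hmem := e5_cons_mem hs x (hball w hw x).2
    have h1 : ContinuousAt F (Fin.cons (x : ℂ) w : Fin (q + 1) → ℂ) :=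
      ((hF.hol _ hmem).differentiableAt (hopen.mem_nhds hmem)).continuousAt
    exact ContinuousAt.comp (f := fun x : ℝ => (Fin.cons (x : ℂ) w : Fin (q + 1) → ℂ)) h1
      (e5_cons_cont q w).continuousAt
  have hmeas0 : AEStronglyMeasurable
      (fun x : ℝ => (fderiv ℂ F (Fin.cons (x : ℂ) v : Fin (q + 1) → ℂ)).comp (e5L q))
      (volume : Measure ℝ) := by
    have h1 : Measurable (fun x : ℝ => fderiv ℂ F (Fin.cons (x : ℂ) v : Fin (q + 1) → ℂ)) :=
      (measurable_fderiv ℂ F).comp (e5_cons_cont q v).measurable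
    have h2 : StronglyMeasurable (fun x : ℝ => fderiv ℂ F (Fin.cons (x : ℂ) v : Fin (q + 1) → ℂ)) :=
      h1.stronglyMeasurable
    have h3 : Continuous (fun T : (Fin (q + 1) → ℂ) →L[ℂ] ℂ => T.comp (e5L q)) := by fun_prop
    exact (h3.comp_stronglyMeasurable h2).aestronglyMeasurable
  have hmeas : AEStronglyMeasurable
      (fun x : ℝ => (fderiv ℂ F (Fin.cons (x : ℂ) v : Fin (q + 1) → ℂ)).comp (e5L q))
      (volume.restrict (Ι (0 : ℝ) 1)) := hmeas0.restrict
  have hvb : v ∈ Metric.ball v r := Metric.mem_ball_self hr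
  constructor
  · rw [intervalIntegrable_iff]
    refine Measure.integrableOn_of_bounded (M := M / r) ?_ hmeas0 ?_
    · simp
    · exact Filter.Eventually.of_forall (fun x => hbound v hvb x)
  · exact intervalIntegral.hasFDerivAt_integral_of_dominated_of_fderiv_le
      (F := fun (w : Fin q → ℂ) (x : ℝ) => F (Fin.cons (x : ℂ) w : Fin (q + 1) → ℂ))
      (F' := fun w x => (fderiv ℂ F (Fin.cons (x : ℂ) w : Fin (q + 1) → ℂ)).comp (e5L q))
      (bound := fun _ => M / r) (Metric.ball_mem_nhds v hr)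
      (by
        filter_upwards [Metric.ball_mem_nhds v hr] with w hw
        exact (hcont w hw).aestronglyMeasurable)
      ((hcont v hvb).intervalIntegrable _ _)
      hmeas
      (Filter.Eventually.of_forall (fun x _ w hw => hbound w hw x))
      intervalIntegrable_const
      (Filter.Eventually.of_forall (fun x _ w hw => hdiff w hw x))

theorem e5_cont {q : ℕ} {s : ℝ} (hs : 0 < s) {F : (Fin (q + 1) → ℂ) → ℂ} (hF : BO (q + 1) (St s) F)
    {v : Fin q → ℂ} (hv : v ∈ PU q (St s)) :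
    Continuous (fun x : ℝ => F (Fin.cons (x : ℂ) v : Fin (q + 1) → ℂ)) := by
  rw [continuous_iff_continuousAt]
  intro x
  have hmem := e5_cons_mem hs x hv
  have h1 : ContinuousAt F (Fin.cons (x : ℂ) v : Fin (q + 1) → ℂ) :=
    ((hF.hol _ hmem).differentiableAt ((e5_pu_open (q + 1) (e5_st_open s)).mem_nhds hmem)).continuousAt
  exact ContinuousAt.comp (f := fun x : ℝ => (Fin.cons (x : ℂ) v : Fin (q + 1) → ℂ)) h1
    (e5_cons_cont q v).continuousAt

theorem e5_norm {q : ℕ} {s : ℝ} (hs : 0 < s) {F : (Fin (q + 1) → ℂ) → ℂ} {M : ℝ}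
    (hM : ∀ z ∈ PU (q + 1) (St s), ‖F z‖ ≤ M) {v : Fin q → ℂ} (hv : v ∈ PU q (St s)) :
    ‖tc q F v‖ ≤ M := by
  have h := intervalIntegral.norm_integral_le_of_norm_le_const (a := (0 : ℝ)) (b := 1) (C := M)
    (f := fun x : ℝ => F (Fin.cons (x : ℂ) v : Fin (q + 1) → ℂ))
    (fun x _ => hM _ (e5_cons_mem hs x hv))
  simpa [tc] using h

theorem e5_bo {q : ℕ} {s : ℝ} (hs : 0 < s) {F : (Fin (q + 1) → ℂ) → ℂ} (hF : BO (q + 1) (St s) F) :
    BO q (St s) (tc q F) := by
  refine ⟨?_, ?_, ?_, ?_⟩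
  · intro v hv
    exact (e5_tc_hfd hs hF hv).2.differentiableAt.differentiableWithinAt
  · intro z hz i
    unfold tc
    refine intervalIntegral.integral_congr (fun x _ => ?_)
    have h := hF.per _ (e5_cons_mem hs x hz) i.succ
    rw [Fin.cons_succ, ← Fin.cons_update] at h
    exact h
  · intro z hz σ
    unfold tc
    rw [← intervalIntegral.integral_const_mul]
    refine intervalIntegral.integral_congr (fun x _ => ?_)
    have h := hF.alt _ (e5_cons_mem hs x hz) (Equiv.Perm.decomposeFin.symm (0, σ))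
    rw [Equiv.Perm.decomposeFin.symm_sign] at h
    have h2 : (fun i => (Fin.cons (x : ℂ) z : Fin (q + 1) → ℂ)
        ((Equiv.Perm.decomposeFin.symm ((0 : Fin (q + 1)), σ)) i))
        = (Fin.cons (x : ℂ) (fun i => z (σ i)) : Fin (q + 1) → ℂ) := by
      funext i
      refine Fin.cases ?_ ?_ i
      · simp
      · intro j; simp
    rw [h2] at h
    simpa using h
  · obtain ⟨M, hM⟩ := hF.bdd
    exact ⟨M, fun z hz => e5_norm hs hM hz⟩

theorem e5_insert_cons {n : ℕ} (j : Fin (n + 1)) (t x : ℂ) (v : Fin n → ℂ) :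
    (j.succ.insertNth t (Fin.cons x v : Fin (n + 1) → ℂ) : Fin (n + 2) → ℂ)
      = (Fin.cons x (j.insertNth t v : Fin (n + 1) → ℂ) : Fin (n + 2) → ℂ) := by
  rw [Fin.insertNth_eq_iff]
  refine ⟨by simp, ?_⟩
  funext k
  refine Fin.cases ?_ ?_ k
  · simp [Fin.removeNth]
  · intro l
    simp [Fin.removeNth, Fin.succ_succAbove_succ]

theorem e5_gap {n : ℕ} {s : ℝ} (hs : 0 < s) {v : Fin n → ℂ} (hv : v ∈ PU n (St s)) :
    ∃ r : ℝ, 0 < r ∧ r < s ∧ ∀ i, |(v i).im| + r < s := by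
  have h1 : ∀ i, ∀ᶠ r in 𝓝[>] (0 : ℝ), |(v i).im| + r < s := by
    intro i
    have h2 : |(v i).im| + 0 < s := by
      have h0 : |(v i).im| < s := hv i
      simpa using h0
    have h3 : Filter.Tendsto (fun r : ℝ => |(v i).im| + r) (𝓝[>] (0 : ℝ)) (𝓝 (|(v i).im| + 0)) :=
      ((continuous_const.add continuous_id).tendsto (0 : ℝ)).mono_left nhdsWithin_le_nhds
    exact h3.eventually (eventually_lt_nhds h2)
  have h2 : ∀ᶠ r in 𝓝[>] (0 : ℝ), 0 < r ∧ r < s := by
    filter_upwards [self_mem_nhdsWithin, nhdsWithin_le_nhds (eventually_lt_nhds hs)] with r h3 h4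
    exact ⟨h3, h4⟩
  obtain ⟨r, h3, h4⟩ := (h2.and (Filter.eventually_all.2 h1)).exists
  exact ⟨r, h3.1, h3.2, h4⟩

theorem e5_ball_sub {n : ℕ} {s r : ℝ} {p : Fin n → ℂ} (h : ∀ i, |(p i).im| + r < s) :
    Metric.closedBall p r ⊆ PU n (St s) := by
  intro y hy i
  have h1 : dist (y i) (p i) ≤ r := (dist_le_pi_dist y p i).trans hy
  rw [dist_eq_norm] at h1
  have h2 : |(y i - p i).im| ≤ ‖y i - p i‖ := Complex.abs_im_le_norm _
  rw [Complex.sub_im] at h2
  have h3 : |(y i).im| ≤ |(y i).im - (p i).im| + |(p i).im| := by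
    have := abs_add_le ((y i).im - (p i).im) (p i).im
    simpa using this
  show |(y i).im| < s
  have h4 := h i
  linarith

theorem e5_part2 {q : ℕ} {s : ℝ} (hs : 0 < s) {F : (Fin (q + 2) → ℂ) → ℂ} (hF : BO (q + 2) (St s) F)
    {v : Fin q → ℂ} (hv : v ∈ PU q (St s)) :
    tc q (dd (q + 1) F) v = ec q F v - dd q (tc (q + 1) F) v := by
  have hopen := e5_pu_open (q + 2) (e5_st_open s)
  have hw : ∀ j : Fin q, (j.succ.insertNth (v j) v : Fin (q + 1) → ℂ) ∈ PU (q + 1) (St s) := by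
    intro j i
    rcases Fin.eq_self_or_eq_succAbove j.succ i with h | ⟨k, h⟩
    · subst h; simpa using hv j
    · subst h; simpa using hv k
  -- derivative of the contraction
  have hder : ∀ j : Fin q, deriv (fun t : ℂ => tc (q + 1) F (j.succ.insertNth t v)) (v j)
        = ∫ x in (0 : ℝ)..1, deriv (fun t : ℂ => F (Fin.cons (x : ℂ)
          (j.succ.insertNth t v : Fin (q + 1) → ℂ) : Fin (q + 2) → ℂ)) (v j) := by
    intro j
    obtain ⟨hint, hfd⟩ := e5_tc_hfd hs hF (hw j)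
    have h1 : HasDerivAt ((tc (q + 1) F) ∘ (fun t : ℂ => (j.succ.insertNth t v : Fin (q + 1) → ℂ)))
        ((∫ x in (0 : ℝ)..1, (fderiv ℂ F (Fin.cons (x : ℂ) (j.succ.insertNth (v j) v :
          Fin (q + 1) → ℂ) : Fin (q + 2) → ℂ)).comp (e5L (q + 1))) (Pi.single j.succ 1)) (v j) :=
      hfd.comp_hasDerivAt (v j) (e5_insert_hd j.succ v (v j))
    have h2 : ∀ x : ℝ, deriv (fun t : ℂ => F (Fin.cons (x : ℂ)
          (j.succ.insertNth t v : Fin (q + 1) → ℂ) : Fin (q + 2) → ℂ)) (v j)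
        = ((fderiv ℂ F (Fin.cons (x : ℂ) (j.succ.insertNth (v j) v : Fin (q + 1) → ℂ) :
          Fin (q + 2) → ℂ)).comp (e5L (q + 1))) (Pi.single j.succ 1) := by
      intro x
      have hmem := e5_cons_mem hs x (hw j)
      have h3 : HasFDerivAt F (fderiv ℂ F (Fin.cons (x : ℂ)
          (j.succ.insertNth (v j) v : Fin (q + 1) → ℂ) : Fin (q + 2) → ℂ))
          (Fin.cons (x : ℂ) (j.succ.insertNth (v j) v : Fin (q + 1) → ℂ) : Fin (q + 2) → ℂ) :=
        ((hF.hol _ hmem).differentiableAt (hopen.mem_nhds hmem)).hasFDerivAt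
      have h4 := h3.comp (j.succ.insertNth (v j) v : Fin (q + 1) → ℂ) (e5_cons_hfd (q + 1) x _)
      exact (h4.comp_hasDerivAt (v j) (e5_insert_hd j.succ v (v j))).deriv
    have h1' : deriv (fun t : ℂ => tc (q + 1) F (j.succ.insertNth t v)) (v j)
        = (∫ x in (0 : ℝ)..1, (fderiv ℂ F (Fin.cons (x : ℂ) (j.succ.insertNth (v j) v :
          Fin (q + 1) → ℂ) : Fin (q + 2) → ℂ)).comp (e5L (q + 1))) (Pi.single j.succ 1) := h1.deriv
    rw [h1']
    simp only [h2]
    exact ContinuousLinearMap.intervalIntegral_apply hint _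
  -- integrability of the summands
  obtain ⟨M, hM⟩ := hF.bdd
  obtain ⟨r, hr0, hrs, hr⟩ := e5_gap hs hv
  have hpt : ∀ (i : Fin (q + 1)) (x : ℝ) (k : Fin (q + 2)),
      |((i.succ.insertNth ((Fin.cons (x : ℂ) v : Fin (q + 1) → ℂ) i) (Fin.cons (x : ℂ) v : Fin (q + 1) → ℂ) :
        Fin (q + 2) → ℂ) k).im| + r < s := by
    intro i x k
    have hz : ∀ l : Fin (q + 1), |((Fin.cons (x : ℂ) v : Fin (q + 1) → ℂ) l).im| + r < s := by
      intro l
      refine Fin.cases ?_ ?_ l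
      · simpa using hrs
      · intro m; simpa using hr m
    rcases Fin.eq_self_or_eq_succAbove i.succ k with h | ⟨l, h⟩
    · subst h; simpa using hz i
    · subst h; simpa using hz l
  have hmemP : ∀ (i : Fin (q + 1)) (x : ℝ),
      (i.succ.insertNth ((Fin.cons (x : ℂ) v : Fin (q + 1) → ℂ) i) (Fin.cons (x : ℂ) v : Fin (q + 1) → ℂ) :
        Fin (q + 2) → ℂ) ∈ PU (q + 2) (St s) := by
    intro i x
    exact e5_ball_sub (hpt i x) (Metric.mem_closedBall_self hr0.le)
  have hT : ∀ (i : Fin (q + 1)) (x : ℝ),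
      deriv (fun t : ℂ => F (i.succ.insertNth t (Fin.cons (x : ℂ) v : Fin (q + 1) → ℂ)))
        ((Fin.cons (x : ℂ) v : Fin (q + 1) → ℂ) i)
      = fderiv ℂ F (i.succ.insertNth ((Fin.cons (x : ℂ) v : Fin (q + 1) → ℂ) i)
          (Fin.cons (x : ℂ) v : Fin (q + 1) → ℂ)) (Pi.single i.succ 1) := by
    intro i x
    exact (e5_deriv_insert i.succ _ _
      ((hF.hol _ (hmemP i x)).differentiableAt (hopen.mem_nhds (hmemP i x)))).deriv
  have hcontP : ∀ i : Fin (q + 1), Continuous (fun x : ℝ =>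
      (i.succ.insertNth ((Fin.cons (x : ℂ) v : Fin (q + 1) → ℂ) i) (Fin.cons (x : ℂ) v : Fin (q + 1) → ℂ) :
        Fin (q + 2) → ℂ)) := by
    intro i
    have hc := e5_cons_cont q v
    refine continuous_pi (fun k => ?_)
    rcases Fin.eq_self_or_eq_succAbove i.succ k with h | ⟨l, h⟩
    · subst h
      have h5 := (continuous_apply i).comp hc
      simpa [Function.comp_def] using h5
    · subst h
      have h5 := (continuous_apply l).comp hc
      simpa [Function.comp_def] using h5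
  have hint : ∀ i : Fin (q + 1), IntervalIntegrable (fun x : ℝ =>
      deriv (fun t : ℂ => F (i.succ.insertNth t (Fin.cons (x : ℂ) v : Fin (q + 1) → ℂ)))
        ((Fin.cons (x : ℂ) v : Fin (q + 1) → ℂ) i)) volume 0 1 := by
    intro i
    simp only [hT]
    rw [intervalIntegrable_iff]
    refine Measure.integrableOn_of_bounded (M := M / r * 1) ?_ ?_ ?_
    · simp
    · have h1 : Measurable (fun p : Fin (q + 2) → ℂ => fderiv ℂ F p (Pi.single i.succ 1)) :=
        measurable_fderiv_apply_const ℂ F _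
      exact (h1.comp (hcontP i).measurable).aestronglyMeasurable
    · refine Filter.Eventually.of_forall (fun x => ?_)
      have h2 := e5_cauchy hF.hol hr0 hopen (e5_ball_sub (hpt i x)) hM
      have h3 : ‖(Pi.single i.succ (1 : ℂ) : Fin (q + 2) → ℂ)‖ ≤ 1 := by
        rw [pi_norm_le_iff_of_nonneg zero_le_one]
        intro k
        rw [Pi.single_apply]
        split_ifs <;> simp
      refine (ContinuousLinearMap.le_opNorm _ _).trans ?_
      have h4 : 0 ≤ M / r := (norm_nonneg _).trans h2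
      gcongr
  -- computation
  have hsum : tc q (dd (q + 1) F) v = ∑ i : Fin (q + 1), (-1 : ℂ) ^ (i : ℕ) * ∫ x in (0 : ℝ)..1,
      deriv (fun t : ℂ => F (i.succ.insertNth t (Fin.cons (x : ℂ) v : Fin (q + 1) → ℂ)))
        ((Fin.cons (x : ℂ) v : Fin (q + 1) → ℂ) i) := by
    unfold tc dd
    rw [intervalIntegral.integral_finsetSum (fun i _ => (hint i).const_mul _)]
    refine Finset.sum_congr rfl (fun i _ => ?_)
    rw [intervalIntegral.integral_const_mul]
  rw [hsum, Fin.sum_univ_succ]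
  have h0 : (∫ x in (0 : ℝ)..1, deriv (fun t : ℂ => F ((0 : Fin (q + 1)).succ.insertNth t
      (Fin.cons (x : ℂ) v : Fin (q + 1) → ℂ))) ((Fin.cons (x : ℂ) v : Fin (q + 1) → ℂ) 0)) = ec q F v := by
    unfold ec
    refine intervalIntegral.integral_congr (fun x _ => ?_)
    have h1 : (fun t : ℂ => F ((0 : Fin (q + 1)).succ.insertNth t (Fin.cons (x : ℂ) v : Fin (q + 1) → ℂ)))
        = fun t : ℂ => F (Fin.cons (x : ℂ) (Fin.cons t v : Fin (q + 1) → ℂ) : Fin (q + 2) → ℂ) := by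
      funext t
      rw [e5_insert_cons, Fin.insertNth_zero']
    show deriv _ _ = deriv _ _
    rw [h1, Fin.cons_zero]
  have h1 : ∀ j : Fin q, (∫ x in (0 : ℝ)..1, deriv (fun t : ℂ => F (j.succ.succ.insertNth t
      (Fin.cons (x : ℂ) v : Fin (q + 1) → ℂ))) ((Fin.cons (x : ℂ) v : Fin (q + 1) → ℂ) j.succ))
      = deriv (fun t : ℂ => tc (q + 1) F (j.succ.insertNth t v)) (v j) := by
    intro j
    rw [hder j]
    refine intervalIntegral.integral_congr (fun x _ => ?_)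
    show deriv _ _ = deriv _ _
    rw [Fin.cons_succ]
    simp only [e5_insert_cons]
  rw [h0]
  simp only [h1]
  unfold dd
  rw [sub_eq_add_neg, ← Finset.sum_neg_distrib]
  simp only [Fin.val_zero, pow_zero, one_mul, Fin.val_succ, pow_succ]
  refine congrArg₂ (· + ·) rfl (Finset.sum_congr rfl (fun j _ => ?_))
  ring

theorem e5_part3 {q : ℕ} {s : ℝ} (hs : 0 < s) {F : (Fin (q + 1) → ℂ) → ℂ} (hF : BO (q + 1) (St s) F)
    {v : Fin (q + 1) → ℂ} (hv : v ∈ PU (q + 1) (St s)) :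
    tc (q + 1) (wd (fun _ => 1) (q + 1) F) v = F v - wd (fun _ => 1) q (tc q F) v := by
  have hrem : ∀ j : Fin (q + 1), j.removeNth v ∈ PU q (St s) := fun j i => hv _
  have hz : ∀ (x : ℝ), wd (fun _ => 1) (q + 1) F (Fin.cons (x : ℂ) v : Fin (q + 2) → ℂ)
      = F v + ∑ j : Fin (q + 1), -((-1 : ℂ) ^ (j : ℕ)) * F (Fin.cons (x : ℂ) (j.removeNth v) : Fin (q + 1) → ℂ) := by
    intro x
    unfold wd
    rw [Fin.sum_univ_succ]
    have h0 : (0 : Fin (q + 2)).removeNth (Fin.cons (x : ℂ) v : Fin (q + 2) → ℂ) = v := by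
      funext k; simp [Fin.removeNth]
    rw [h0]
    simp only [Fin.val_zero, pow_zero, one_mul, mul_one, Fin.val_succ, pow_succ]
    refine congrArg₂ (· + ·) rfl (Finset.sum_congr rfl (fun j _ => ?_))
    have h1 : j.succ.removeNth (Fin.cons (x : ℂ) v : Fin (q + 2) → ℂ)
        = (Fin.cons (x : ℂ) (j.removeNth v) : Fin (q + 1) → ℂ) := by
      funext k
      refine Fin.cases ?_ ?_ k
      · simp [Fin.removeNth]
      · intro l
        simp [Fin.removeNth, Fin.succ_succAbove_succ]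
    rw [h1]
    ring
  have hint : ∀ j : Fin (q + 1), IntervalIntegrable
      (fun x : ℝ => F (Fin.cons (x : ℂ) (j.removeNth v) : Fin (q + 1) → ℂ)) volume 0 1 := fun j =>
    (e5_cont hs hF (hrem j)).intervalIntegrable _ _
  have h1 : tc (q + 1) (wd (fun _ => 1) (q + 1) F) v = ∫ x in (0 : ℝ)..1, (F v + ∑ j : Fin (q + 1),
      -((-1 : ℂ) ^ (j : ℕ)) * F (Fin.cons (x : ℂ) (j.removeNth v) : Fin (q + 1) → ℂ)) := by
    unfold tc
    refine intervalIntegral.integral_congr (fun x _ => ?_)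
    exact hz x
  have hsi : IntervalIntegrable (fun x : ℝ => ∑ j : Fin (q + 1),
      -((-1 : ℂ) ^ (j : ℕ)) * F (Fin.cons (x : ℂ) (j.removeNth v) : Fin (q + 1) → ℂ)) volume 0 1 := by
    have h2 := IntervalIntegrable.sum (Finset.univ : Finset (Fin (q + 1)))
      (fun j _ => (hint j).const_mul (-((-1 : ℂ) ^ (j : ℕ))))
    have h3 : (fun x : ℝ => ∑ j : Fin (q + 1),
        -((-1 : ℂ) ^ (j : ℕ)) * F (Fin.cons (x : ℂ) (j.removeNth v) : Fin (q + 1) → ℂ))
        = ∑ j : Fin (q + 1), fun x : ℝ =>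
          -((-1 : ℂ) ^ (j : ℕ)) * F (Fin.cons (x : ℂ) (j.removeNth v) : Fin (q + 1) → ℂ) := by
      funext x
      rw [Finset.sum_apply]
    rw [h3]
    exact h2
  rw [h1, intervalIntegral.integral_add intervalIntegrable_const hsi,
    intervalIntegral.integral_finsetSum (fun j _ => (hint j).const_mul _)]
  simp only [intervalIntegral.integral_const_mul, intervalIntegral.integral_const]
  unfold wd
  rw [sub_eq_add_neg (F v), ← Finset.sum_neg_distrib]
  simp only [sub_zero, one_smul]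
  refine congrArg₂ (· + ·) rfl (Finset.sum_congr rfl (fun j _ => ?_))
  unfold tc
  ring

theorem e5_part4 (F : (Fin 0 → ℂ) → ℂ) (v : Fin 0 → ℂ) : tc 0 (wd (fun _ => 1) 0 F) v = F v := by
  have h1 : ∀ z : Fin 1 → ℂ, wd (fun _ => 1) 0 F z = F v := by
    intro z
    unfold wd
    rw [Fin.sum_univ_succ, Fin.sum_univ_zero, add_zero]
    have h2 : (0 : Fin (0 + 1)).removeNth z = v := by
      funext k
      exact k.elim0
    rw [h2]
    simp
  unfold tc
  simp [h1]

theorem st_E5 : ST_E5 := by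
  intro q s hs
  refine ⟨fun F hF => ⟨e5_bo hs hF, fun M hM z hz => e5_norm hs hM hz⟩, fun F hF v hv => e5_part2 hs hF hv,
    fun F hF v hv => e5_part3 hs hF hv, fun F _ v => e5_part4 F v⟩

end

end Pool.Agent.Helper67.DO
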